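import Pool.Agent.P.MP_0279ce_an.Fact

theorem Pool.Agent.Results.MP_0279ce_an.Factoring.result :
    ∃ (A : Type) (_ : NonUnitalNormedCommRing A) (_ : NormedSpace ℂ A)
      (_ : IsScalarTower ℂ A A) (_ : SMulCommClass ℂ A A) (_ : CompleteSpace A),
      Ring.jacobson (Unitization ℂ A) = ⊥ ∧ (∀ x : A, ∃ a b : A, x = a * b) ∧
      FiniteDimensional ℂ (A ⧸ Submodule.span ℂ {x : A | ∃ a b : A, x = a * b}) ∧
      ¬ ∃ C : ℝ, ∀ x ∈ Submodule.span ℂ {x : A | ∃ a b : A, x = a * b},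
        ∃ (n : ℕ) (a b : Fin n → A), x = ∑ i, a i * b i ∧ ∑ i, ‖a i‖ * ‖b i‖ ≤ C * ‖x‖ := by
  obtain ⟨A, i1, i2, i3, i4, i5, h1, h2, h3⟩ := Pool.Agent.P.MP_0279ce_an.Comm.main_fact
  have h4 : Submodule.span ℂ {x : A | ∃ a b : A, x = a * b} = ⊤ :=
    eq_top_iff.2 fun x _ => Submodule.subset_span (h2 x)
  refine ⟨A, i1, i2, i3, i4, i5, h1, h2, ?_, h3⟩
  have : Subsingleton (A ⧸ Submodule.span ℂ {x : A | ∃ a b : A, x = a * b}) :=
    Submodule.Quotient.subsingleton_iff.2 h4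
  exact Module.Finite.of_finite

/-- Q1 (negated form): drop the second conjunct. -/
theorem Pool.Agent.Results.MP_0279ce_an.Factoring.instance_commutative :
    ∃ (A : Type) (_ : NonUnitalNormedCommRing A) (_ : NormedSpace ℂ A)
      (_ : IsScalarTower ℂ A A) (_ : SMulCommClass ℂ A A) (_ : CompleteSpace A),
      Ring.jacobson (Unitization ℂ A) = ⊥ ∧
      FiniteDimensional ℂ (A ⧸ Submodule.span ℂ {x : A | ∃ a b : A, x = a * b}) ∧
      ¬ ∃ C : ℝ, ∀ x ∈ Submodule.span ℂ {x : A | ∃ a b : A, x = a * b},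
        ∃ (n : ℕ) (a b : Fin n → A), x = ∑ i, a i * b i ∧ ∑ i, ‖a i‖ * ‖b i‖ ≤ C * ‖x‖ := by
  obtain ⟨A, i1, i2, i3, i4, i5, h1, -, h4, h5⟩ :=
    Pool.Agent.Results.MP_0279ce_an.Factoring.result
  exact ⟨A, i1, i2, i3, i4, i5, h1, h4, h5⟩

/-- Q2 (negated form, radical zero): every product lies in the span; forget commutativity. -/
theorem Pool.Agent.Results.MP_0279ce_an.Factoring.instance_semisimple :
    ∃ (A : Type) (_ : NonUnitalNormedRing A) (_ : NormedSpace ℂ A)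
      (_ : IsScalarTower ℂ A A) (_ : SMulCommClass ℂ A A) (_ : CompleteSpace A),
      Ring.jacobson (Unitization ℂ A) = ⊥ ∧
      Submodule.span ℂ {x : A | ∃ a b : A, x = a * b} = ⊤ ∧
      ¬ ∃ C : ℝ, ∀ x ∈ Submodule.span ℂ {x : A | ∃ a b : A, x = a * b},
        ∃ (n : ℕ) (a b : Fin n → A), x = ∑ i, a i * b i ∧ ∑ i, ‖a i‖ * ‖b i‖ ≤ C * ‖x‖ := by
  obtain ⟨A, i1, i2, i3, i4, i5, h1, h2, -, h5⟩ :=
    Pool.Agent.Results.MP_0279ce_an.Factoring.result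
  exact ⟨A, inferInstance, i2, i3, i4, i5, h1,
    eq_top_iff.2 fun x _ => Submodule.subset_span (h2 x), h5⟩
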