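import Pool.Agent.P.MP_0279ce_an.SmallD

theorem Pool.Agent.Results.MP_0279ce_an.SmallDensity.result
    (A : Type*) [NonUnitalNormedRing A] [NormedSpace ℂ A] [IsScalarTower ℂ A A]
    [SMulCommClass ℂ A A] [CompleteSpace A] (D : Set A) (hD : Dense D)
    (hcov : ∀ N : D → Set (ℕ → Bool), (∀ d, IsNowhereDense (N d)) → ⋃ d, N d ≠ Set.univ)
    (hfin : FiniteDimensional ℂ (A ⧸ Submodule.span ℂ {x : A | ∃ a b : A, x = a * b})) :
    ∃ C : ℝ, ∀ x ∈ Submodule.span ℂ {x : A | ∃ a b : A, x = a * b},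
      ∃ (n : ℕ) (a b : Fin n → A), x = ∑ i, a i * b i ∧ ∑ i, ‖a i‖ * ‖b i‖ ≤ C * ‖x‖ := by
  rcases D.finite_or_infinite with h | h
  · have h1 : (Set.univ : Set A).Finite := hD.closure_eq ▸ h.isClosed.closure_eq.symm ▸ h
    have h2 : Finite A := Set.finite_univ_iff.1 h1
    rcases subsingleton_or_nontrivial A with h3 | h3
    · exact ⟨0, fun x _ => ⟨0, Fin.elim0, Fin.elim0, Subsingleton.elim _ _, by simp⟩⟩
    · have := Module.Free.infinite ℂ A
      exact (not_finite A).elim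
  · have := h.to_subtype
    exact Pool.Agent.P.MP_0279ce_an.Small.main hD.denseRange_val
      (fun ⟨N, h1, h2⟩ => hcov N h1 (Set.eq_univ_of_univ_subset h2)) hfin

/-- The hypothesis holds for every countable dense set (Baire): the separable case. -/
theorem Pool.Agent.Results.MP_0279ce_an.SmallDensity.instance_separable
    (A : Type*) [NonUnitalNormedRing A] [NormedSpace ℂ A] [IsScalarTower ℂ A A]
    [SMulCommClass ℂ A A] [CompleteSpace A] [TopologicalSpace.SeparableSpace A]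
    (hfin : FiniteDimensional ℂ (A ⧸ Submodule.span ℂ {x : A | ∃ a b : A, x = a * b})) :
    ∃ C : ℝ, ∀ x ∈ Submodule.span ℂ {x : A | ∃ a b : A, x = a * b},
      ∃ (n : ℕ) (a b : Fin n → A), x = ∑ i, a i * b i ∧ ∑ i, ‖a i‖ * ‖b i‖ ≤ C * ‖x‖ := by
  obtain ⟨D, hc, hD⟩ := TopologicalSpace.exists_countable_dense A
  have := hc.to_subtype
  refine Pool.Agent.Results.MP_0279ce_an.SmallDensity.result A D hD (fun N hN h => ?_) hfin
  exact not_isMeagre_of_isOpen isOpen_univ Set.univ_nonempty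
    (h ▸ isMeagre_iUnion fun d => (hN d).isMeagre)
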