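import Pool.Agent.P.MP_0279ce_an.UMain

theorem Pool.Agent.Results.MP_0279ce_an.UniformAlgebra.result :
    ∃ (X : Type) (_ : TopologicalSpace X) (_ : CompactSpace X) (_ : T2Space X)
      (B : Subalgebra ℂ C(X, ℂ)) (x₀ : X)
      (A : Type) (_ : NonUnitalNormedCommRing A) (_ : NormedSpace ℂ A)
      (_ : IsScalarTower ℂ A A) (_ : SMulCommClass ℂ A A) (_ : CompleteSpace A)
      (j : A →ₙₐ[ℂ] C(X, ℂ)),
      IsClosed (B : Set C(X, ℂ)) ∧ B.SeparatesPoints ∧ (∀ a, ‖j a‖ = ‖a‖) ∧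
      (∀ f, (∃ a, j a = f) ↔ f ∈ B ∧ f x₀ = 0) ∧
      Ring.jacobson (Unitization ℂ A) = ⊥ ∧
      FiniteDimensional ℂ (A ⧸ Submodule.span ℂ {x : A | ∃ a b : A, x = a * b}) ∧
      ¬ ∃ C : ℝ, ∀ x ∈ Submodule.span ℂ {x : A | ∃ a b : A, x = a * b},
        ∃ (n : ℕ) (a b : Fin n → A), x = ∑ i, a i * b i ∧ ∑ i, ‖a i‖ * ‖b i‖ ≤ C * ‖x‖ := by
  obtain ⟨X, i1, i2, i3, B, x₀, M, h1, h2, h3, h4, h5, h6, h7⟩ :=
    Pool.Agent.P.MP_0279ce_an.Unif.main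
  refine ⟨X, i1, i2, i3, B, x₀, M, inferInstance, ⟨fun c x => norm_smul_le c (x : C(X, ℂ))⟩,
    inferInstance, inferInstance, h4, NonUnitalSubalgebraClass.subtype M, h1, h2, fun _ => rfl,
    fun f => ?_, h5, h6, h7⟩
  rw [← h3]
  exact ⟨fun ⟨a, ha⟩ => ha ▸ a.2, fun hf => ⟨⟨f, hf⟩, rfl⟩⟩

/-- Q1 and Q2 (negated forms) for the abstract Banach algebra: commutative, radical zero. -/
theorem Pool.Agent.Results.MP_0279ce_an.UniformAlgebra.instance_abstract :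
    ∃ (A : Type) (_ : NonUnitalNormedCommRing A) (_ : NormedSpace ℂ A)
      (_ : IsScalarTower ℂ A A) (_ : SMulCommClass ℂ A A) (_ : CompleteSpace A),
      Ring.jacobson (Unitization ℂ A) = ⊥ ∧
      FiniteDimensional ℂ (A ⧸ Submodule.span ℂ {x : A | ∃ a b : A, x = a * b}) ∧
      ¬ ∃ C : ℝ, ∀ x ∈ Submodule.span ℂ {x : A | ∃ a b : A, x = a * b},
        ∃ (n : ℕ) (a b : Fin n → A), x = ∑ i, a i * b i ∧ ∑ i, ‖a i‖ * ‖b i‖ ≤ C * ‖x‖ := by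
  obtain ⟨X, _, _, _, B, x₀, A, i1, i2, i3, i4, i5, j, -, -, -, -, h1, h2, h3⟩ :=
    Pool.Agent.Results.MP_0279ce_an.UniformAlgebra.result
  exact ⟨A, i1, i2, i3, i4, i5, h1, h2, h3⟩
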